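import Pool.Agent.Helper25_CON.Stmts

/-! Module A_MIN: a minimal lattice has large rank modulo every prime. -/

set_option autoImplicit false

noncomputable section

namespace Pool.Agent.CON.H58

open Pool.Agent.H25Cong Pool.Agent.CON

variable {n : ℕ}

theorem rad_le (L : Submodule ℤ (V n)) (p : ℕ) : Rad L p ≤ L := fun _ h => h.1

theorem zsmul_mem (L : Submodule ℤ (V n)) (k : ℕ) {x : V n} (h : x ∈ L) : (k : ℝ) • x ∈ L := by
  have h1 : (k : ℝ) • x = (k : ℤ) • x := by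
    rw [← Int.cast_smul_eq_zsmul ℝ]
    simp
  rw [h1]
  exact L.smul_mem _ h

theorem p_rad {L : Submodule ℤ (V n)} (hL : EvenLat L) (p : ℕ) {x : V n} (h : x ∈ L) :
    (p : ℝ) • x ∈ Rad L p := by
  refine ⟨zsmul_mem L p h, fun y hy => ?_⟩
  obtain ⟨k, hk⟩ := hL.int x h y hy
  exact ⟨k, by rw [B_smul_left, hk]⟩

theorem inv_rad {Γ : Subgroup (V n ≃ₗ[ℝ] V n)} {L : Submodule ℤ (V n)} (hi : Inv Γ L)
    (hΓ : ∀ g ∈ Γ, Isom g) (p : ℕ) : Inv Γ (Rad L p) := by
  rintro g hg x ⟨hx, hx'⟩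
  refine ⟨hi g hg x hx, fun y hy => ?_⟩
  obtain ⟨k, hk⟩ := hx' (g⁻¹ y) (hi _ (Γ.inv_mem hg) y hy)
  refine ⟨k, ?_⟩
  rw [← hk, ← hΓ g hg x (g⁻¹ y)]
  congr 1
  exact (g.apply_symm_apply y).symm

/-- one scaling step -/
theorem step (hSub : A_SUB) {vol : Submodule ℤ (V n) → ℝ}
    (hpos : ∀ L, IsLat L → 0 < vol L)
    (hidx : ∀ L L', IsLat L → IsLat L' → L' ≤ L →
      vol L' = (L'.toAddSubgroup.relIndex L.toAddSubgroup : ℕ) * vol L)
    (hscale : ∀ (L L' : Submodule ℤ (V n)) (c : ℝ), IsLat L → 0 < c →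
      (∀ x, x ∈ L' ↔ c⁻¹ • x ∈ L) → IsLat L' ∧ vol L' = c ^ (n + 1) * vol L)
    {Γ : Subgroup (V n ≃ₗ[ℝ] V n)} {Λ L R : Submodule ℤ (V n)} (hL : EvenLat L)
    (hc : Csc Λ L)
    (hmin : ∀ L', EvenLat L' → Inv Γ L' → Csc Λ L' → vol L ^ 2 ≤ vol L' ^ 2)
    (p : ℕ) (hp : 0 < p) (hRL : R ≤ L) (hpR : ∀ x ∈ L, (p : ℝ) • x ∈ R)
    (hint : ∀ x ∈ R, ∀ y ∈ R, ∃ k : ℤ, B x y = p * k)
    (heven : ∀ x ∈ R, ∃ k : ℤ, B x x = p * (2 * k)) (hinv : Inv Γ R) :
    p ^ (n + 1) ≤ (R.toAddSubgroup.relIndex L.toAddSubgroup) ^ 2 := by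
  have hRlat : IsLat R := hSub n L R p hL.lat hp hRL hpR
  set s : ℝ := Real.sqrt p with hs
  have hp' : (0 : ℝ) < p := by exact_mod_cast hp
  have hs0 : 0 < s := Real.sqrt_pos.mpr hp'
  have hss : s * s = p := Real.mul_self_sqrt hp'.le
  set L1 : Submodule ℤ (V n) := R.comap ((LinearMap.lsmul ℝ (V n) s).restrictScalars ℤ) with hL1
  have hmem : ∀ x, x ∈ L1 ↔ s • x ∈ R := fun x => Iff.rfl
  obtain ⟨hlat, hvol⟩ := hscale R L1 s⁻¹ hRlat (inv_pos.mpr hs0)
    (fun x => by rw [inv_inv]; exact hmem x)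
  have hBs : ∀ x y : V n, B (s • x) (s • y) = p * B x y := fun x y => by
    rw [B_smul_left, B_smul_right, ← mul_assoc, hss]
  have hev : EvenLat L1 := by
    refine ⟨hlat, fun x hx y hy => ?_, fun x hx => ?_⟩
    · obtain ⟨k, hk⟩ := hint _ ((hmem x).mp hx) _ ((hmem y).mp hy)
      rw [hBs] at hk
      exact ⟨k, mul_left_cancel₀ hp'.ne' hk⟩
    · obtain ⟨k, hk⟩ := heven _ ((hmem x).mp hx)
      rw [hBs] at hk
      exact ⟨k, mul_left_cancel₀ hp'.ne' hk⟩
  have hi1 : Inv Γ L1 := by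
    intro g hg x hx
    rw [hmem, ← map_smul]
    exact hinv g hg _ ((hmem x).mp hx)
  have hc1 : Csc Λ L1 := by
    obtain ⟨t, D, ht, hD, h1, h2⟩ := hc
    refine ⟨t / s, p * D, div_pos ht hs0, Nat.mul_pos hp hD, fun x hx => ?_, fun x hx => ?_⟩
    · rw [hmem, smul_smul]
      have e : s * (((p * D : ℕ) : ℝ) * (t / s)) = (p : ℝ) * ((D : ℝ) * t) := by
        push_cast
        field_simp
      rw [e, ← smul_smul]
      exact hpR _ (h1 x hx)
    · obtain ⟨y, hy, hxy⟩ := h2 _ (hRL ((hmem x).mp hx))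
      refine ⟨(p : ℝ) • y, ?_, ?_⟩
      · exact zsmul_mem Λ p hy
      · have e : ((p * D : ℕ) : ℝ) • x = s • ((D : ℝ) • (s • x)) := by
          rw [smul_smul, smul_smul]
          congr 1
          push_cast
          rw [← hss]
          ring
        rw [e, hxy, smul_smul, smul_smul]
        congr 1
        rw [← hss]
        field_simp
  have hm := hmin L1 hev hi1 hc1
  have hv := hpos L hL.lat
  rw [hvol, hidx L R hL.lat hRlat hRL] at hm
  set i : ℕ := R.toAddSubgroup.relIndex L.toAddSubgroup with hi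
  have h3 : (p : ℝ) ^ (n + 1) * (s⁻¹ ^ (n + 1)) ^ 2 = 1 := by
    rw [← pow_mul, mul_comm (n + 1) 2, pow_mul, ← mul_pow, sq, ← hss]
    have : s * s * (s⁻¹ * s⁻¹) = 1 := by field_simp
    rw [this, one_pow]
  have h4 : (1 : ℝ) ≤ (s⁻¹ ^ (n + 1)) ^ 2 * (i : ℝ) ^ 2 := by
    have h5 : (s⁻¹ ^ (n + 1) * ((i : ℝ) * vol L)) ^ 2 =
        ((s⁻¹ ^ (n + 1)) ^ 2 * (i : ℝ) ^ 2) * vol L ^ 2 := by ring
    rw [h5] at hm
    by_contra hlt
    push Not at hlt
    have := mul_lt_mul_of_pos_right hlt (pow_pos hv 2)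
    linarith
  have h6 : (p : ℝ) ^ (n + 1) ≤ (i : ℝ) ^ 2 := by
    have h7 := mul_le_mul_of_nonneg_left h4 (pow_nonneg hp'.le (n + 1))
    rw [mul_one, ← mul_assoc, h3, one_mul] at h7
    exact h7
  exact_mod_cast h6

/-- the vectors of Rad L 2 of norm divisible by 4 -/
def R4 {L : Submodule ℤ (V n)} : Submodule ℤ (V n) where
  carrier := {x | x ∈ Rad L 2 ∧ ∃ k : ℤ, B x x = 2 * (2 * k)}
  add_mem' := by
    rintro x y ⟨hx, k, hk⟩ ⟨hy, l, hl⟩
    refine ⟨(Rad L 2).add_mem hx hy, ?_⟩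
    obtain ⟨m, hm⟩ := hx.2 y hy.1
    refine ⟨k + l + m, ?_⟩
    rw [B_add_left, B_add_right, B_add_right, B_comm y x, hk, hl, hm]
    push_cast
    ring
  zero_mem' := ⟨(Rad L 2).zero_mem, 0, by simp⟩
  smul_mem' := by
    rintro c x ⟨hx, k, hk⟩
    refine ⟨(Rad L 2).smul_mem c hx, c * c * k, ?_⟩
    rw [← Int.cast_smul_eq_zsmul ℝ, B_smul_left, B_smul_right, hk]
    push_cast
    ring

theorem relIndex_R4 {L : Submodule ℤ (V n)} (hL : EvenLat L) :
    (R4 (L := L)).toAddSubgroup.relIndex (Rad L 2).toAddSubgroup ≤ 2 := by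
  have hk : ∀ x : (Rad L 2).toAddSubgroup, ∃ k : ℤ, B (x : V n) x = 2 * k :=
    fun x => hL.even x x.2.1
  choose f hf using hk
  let F : (Rad L 2).toAddSubgroup →+ ZMod 2 :=
    { toFun := fun x => (f x : ZMod 2)
      map_zero' := by
        have h := hf 0
        have h0 : (f 0 : ℝ) = 0 := by
          have : B ((0 : (Rad L 2).toAddSubgroup) : V n) ((0 : (Rad L 2).toAddSubgroup) : V n) = 0 := by
            simp
          linarith
        have h1 : f 0 = 0 := by exact_mod_cast h0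
        rw [h1]; simp
      map_add' := by
        intro x y
        obtain ⟨m, hm⟩ := x.2.2 y y.2.1
        have h := hf (x + y)
        have e : ((x + y : (Rad L 2).toAddSubgroup) : V n) = (x : V n) + y := rfl
        rw [e, B_add_left, B_add_right, B_add_right, B_comm (y : V n) x, hf x, hf y, hm] at h
        have h1 : (f (x + y) : ℝ) = f x + f y + 2 * m := by push_cast at h; linarith
        have h2 : f (x + y) = f x + f y + 2 * m := by exact_mod_cast h1
        rw [h2]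
        push_cast
        have : (2 : ZMod 2) = 0 := rfl
        rw [this, zero_mul, add_zero] }
  have hker : (R4 (L := L)).toAddSubgroup.addSubgroupOf (Rad L 2).toAddSubgroup = F.ker := by
    ext x
    rw [AddSubgroup.mem_addSubgroupOf, AddMonoidHom.mem_ker]
    change ((x : V n) ∈ R4 (L := L)) ↔ (f x : ZMod 2) = 0
    rw [ZMod.intCast_zmod_eq_zero_iff_dvd]
    constructor
    · rintro ⟨-, k, hk⟩
      rw [hf x] at hk
      have : (f x : ℝ) = 2 * k := by linarith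
      exact ⟨k, by exact_mod_cast this⟩
    · rintro ⟨k, hk⟩
      refine ⟨x.2, k, ?_⟩
      rw [hf x, hk]
      push_cast
      ring
  rw [AddSubgroup.relIndex, hker, AddSubgroup.index_ker]
  have h1 : Nat.card F.range ≤ Nat.card (ZMod 2) :=
    Nat.card_le_card_of_injective _ Subtype.val_injective
  simpa using h1

theorem a_min (hSub : A_SUB) (hCov : A_COV) : A_MIN := by
  rintro n Γ Λ hn ⟨L0, hL0, hi0, hc0⟩ hΓ
  obtain ⟨vol, hpos, hsq, hidx, hscale⟩ := hCov n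
  classical
  have hex : ∃ k : ℕ, ∃ L, EvenLat L ∧ Inv Γ L ∧ Csc Λ L ∧ vol L ^ 2 = k := by
    obtain ⟨k, hk⟩ := hsq L0 hL0
    exact ⟨k, L0, hL0, hi0, hc0, hk⟩
  obtain ⟨L, hL, hi, hc, hk⟩ := Nat.find_spec hex
  have hmin : ∀ L', EvenLat L' → Inv Γ L' → Csc Λ L' → vol L ^ 2 ≤ vol L' ^ 2 := by
    intro L' h1 h2 h3
    obtain ⟨k', hk'⟩ := hsq L' h1
    rw [hk, hk']
    exact_mod_cast Nat.find_min' hex ⟨L', h1, h2, h3, hk'⟩
  refine ⟨L, hL, hi, hc, fun p hp => ?_⟩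
  by_contra hle
  push Not at hle
  rcases hp.eq_two_or_odd with h2 | hodd
  · subst h2
    have hRL : R4 (L := L) ≤ L := fun x hx => hx.1.1
    have hRR : R4 (L := L) ≤ Rad L 2 := fun x hx => hx.1
    have hstep := step hSub hpos hidx hscale (Γ := Γ) (R := R4 (L := L)) hL hc hmin 2
      (by norm_num) hRL
      (fun x hx => ⟨p_rad hL 2 hx, by
        obtain ⟨k, hk⟩ := hL.int x hx x hx
        refine ⟨k, ?_⟩
        rw [B_smul_left, B_smul_right, hk]
        push_cast; ring⟩)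
      (fun x hx y hy => hx.1.2 y hy.1.1)
      (fun x hx => by
        obtain ⟨k, hk⟩ := hx.2
        exact ⟨k, by rw [hk]; norm_num⟩)
      (fun g hg x hx => ⟨inv_rad hi hΓ 2 g hg x hx.1, by
        rw [hΓ g hg x x]; exact hx.2⟩)
    have hmul := AddSubgroup.relIndex_mul_relIndex (R4 (L := L)).toAddSubgroup
      (Rad L 2).toAddSubgroup L.toAddSubgroup hRR (rad_le L 2)
    have hle2 := relIndex_R4 hL
    rw [← hmul] at hstep
    have h1 : (R4 (L := L)).toAddSubgroup.relIndex (Rad L 2).toAddSubgroup *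
        (Rad L 2).toAddSubgroup.relIndex L.toAddSubgroup ≤ 2 * 2 ^ 6 := Nat.mul_le_mul hle2 hle
    have h3 : (2 : ℕ) ^ 15 ≤ 2 ^ (n + 1) := Nat.pow_le_pow_right (by norm_num) (by omega)
    have h4 := Nat.pow_le_pow_left h1 2
    have : (2 : ℕ) ^ 15 ≤ (2 * 2 ^ 6) ^ 2 := le_trans h3 (le_trans hstep h4)
    norm_num at this
  · have hstep := step hSub hpos hidx hscale (Γ := Γ) (R := Rad L p) hL hc hmin p
      hp.pos (rad_le L p) (fun x hx => p_rad hL p hx)
      (fun x hx y hy => hx.2 y hy.1)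
      (fun x hx => by
        obtain ⟨k, hk⟩ := hx.2 x hx.1
        obtain ⟨m, hm⟩ := hL.even x hx.1
        have h1 : (p : ℤ) * k = 2 * m := by
          have : ((p : ℤ) : ℝ) * k = 2 * m := by
            push_cast
            rw [← hk, hm]
          exact_mod_cast this
        have h2 : (2 : ℤ) ∣ k := by
          have h3 : (2 : ℤ) ∣ (p : ℤ) * k := ⟨m, h1⟩
          rcases Int.prime_two.dvd_or_dvd h3 with h4 | h4
          · exfalso
            have : (2 : ℕ) ∣ p := by exact_mod_cast h4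
            omega
          · exact h4
        obtain ⟨j, hj⟩ := h2
        refine ⟨j, ?_⟩
        rw [hk, hj]
        push_cast
        ring)
      (inv_rad hi hΓ p)
    have h1 := Nat.pow_le_pow_left hle 2
    have h3 : p ^ 15 ≤ p ^ (n + 1) := Nat.pow_le_pow_right hp.pos (by omega)
    have h4 : p ^ 15 ≤ (p ^ 6) ^ 2 := le_trans h3 (le_trans hstep h1)
    rw [← pow_mul] at h4
    have h4' : p ^ 15 ≤ p ^ 12 := h4
    have h5 : p ^ 12 < p ^ 15 := Nat.pow_lt_pow_right hp.one_lt (by norm_num)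
    omega

end Pool.Agent.CON.H58

end
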