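import Pool.Agent.Helper25_CON.Stmts

/-! Module A_COV: the covolume. -/

set_option autoImplicit false

noncomputable section

namespace Pool.Agent.CON.H58

open Pool.Agent.H25Cong Pool.Agent.CON

variable {n : ℕ}

theorem covol_span (b : Module.Basis (Fin (n + 1)) ℝ (V n)) :
    ZLattice.covolume (Submodule.span ℤ (Set.range b)) = |(Matrix.of (b : Fin (n + 1) → V n)).det| := by
  rw [ZLattice.covolume_eq_det _ (b.restrictScalars ℤ)]
  congr 3
  funext i
  exact Module.Basis.restrictScalars_apply ℤ b i

theorem det_ne (b : Module.Basis (Fin (n + 1)) ℝ (V n)) :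
    (Matrix.of (b : Fin (n + 1) → V n)).det ≠ 0 := by
  have h := ZLattice.covolume_ne_zero (Submodule.span ℤ (Set.range b))
  rw [covol_span] at h
  exact fun h0 => h (by rw [h0, abs_zero])

/-- the Gram matrix -/
theorem gram (b : Fin (n + 1) → V n) :
    (Matrix.of fun i j => B (b i) (b j)).det = - (Matrix.of b).det ^ 2 := by
  have h1 : (Matrix.of fun i j => B (b i) (b j)) =
      Matrix.of b * Matrix.diagonal (fun i : Fin (n + 1) => if i = 0 then (-1 : ℝ) else 1) *
        (Matrix.of b).transpose := by
    ext i j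
    rw [Matrix.mul_apply]
    simp only [Matrix.mul_diagonal, Matrix.of_apply, Matrix.transpose_apply]
    unfold B
    have h2 : (2 : ℝ) * (b i 0 * b j 0) =
        ∑ k : Fin (n + 1), if k = 0 then 2 * (b i k * b j k) else 0 := by simp
    rw [h2, ← Finset.sum_sub_distrib]
    refine Finset.sum_congr rfl fun k _ => ?_
    split_ifs with hk <;> ring
  rw [h1, Matrix.det_mul, Matrix.det_mul, Matrix.det_transpose, Matrix.det_diagonal]
  have h3 : ∏ i : Fin (n + 1), (if i = 0 then (-1 : ℝ) else 1) = -1 := by simp
  rw [h3]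
  ring

theorem a_cov : A_COV := by
  intro n
  refine ⟨fun L : Submodule ℤ (V n) => ZLattice.covolume L, ?_, ?_, ?_, ?_⟩
  · rintro L ⟨b, rfl⟩
    exact ZLattice.covolume_pos (Submodule.span ℤ (Set.range b))
  · rintro L ⟨⟨b, rfl⟩, hint, -⟩
    have hb : ∀ i, b i ∈ Submodule.span ℤ (Set.range b) := fun i =>
      Submodule.subset_span ⟨i, rfl⟩
    choose k hk using fun i j => hint (b i) (hb i) (b j) (hb j)
    refine ⟨(Matrix.det (Matrix.of k)).natAbs, ?_⟩
    simp only
    rw [covol_span, sq_abs]
    have h1 := gram (fun i => b i)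
    have h2 : (Matrix.of fun i j => B (b i) (b j)) = (Matrix.of k).map (Int.castRingHom ℝ) := by
      ext i j
      simp [hk]
    rw [h2, ← RingHom.mapMatrix_apply, ← RingHom.map_det] at h1
    rw [Nat.cast_natAbs, Int.cast_abs]
    have h3 : ((Matrix.det (Matrix.of k) : ℤ) : ℝ) = -(Matrix.of fun i => b i).det ^ 2 := h1
    rw [h3, abs_neg, abs_of_nonneg (sq_nonneg _)]
  · rintro L L' ⟨b, rfl⟩ ⟨b', rfl⟩ hle
    have h1 := ZLattice.covolume_div_covolume_eq_relIndex _ _ hle
    have h2 := ZLattice.covolume_ne_zero (Submodule.span ℤ (Set.range b))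
    rw [div_eq_iff h2] at h1
    exact h1
  · rintro L L' c ⟨b, rfl⟩ hc hL'
    have hc0 : c ≠ 0 := hc.ne'
    set b' : Module.Basis (Fin (n + 1)) ℝ (V n) := b.unitsSMul (fun _ => Units.mk0 c hc0) with hb'
    have hbv : ∀ i, b' i = c • b i := fun i => by
      rw [hb', Module.Basis.unitsSMul_apply]
      rfl
    have hLe : L' = Submodule.span ℤ (Set.range b') := by
      ext x
      rw [hL']
      have e : Set.range b' = (fun v : V n => c • v) '' Set.range b := by
        rw [← Set.range_comp]
        congr 1
        funext i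
        exact hbv i
      have f : Submodule.span ℤ (Set.range b') =
          (Submodule.span ℤ (Set.range b)).map
            ((LinearMap.lsmul ℝ (V n) c).restrictScalars ℤ) := by
        rw [Submodule.map_span, e]
        rfl
      rw [f, Submodule.mem_map]
      constructor
      · intro h
        refine ⟨_, h, ?_⟩
        change c • c⁻¹ • x = x
        rw [smul_smul, mul_inv_cancel₀ hc0, one_smul]
      · rintro ⟨y, hy, rfl⟩
        change c⁻¹ • c • y ∈ _
        rw [smul_smul, inv_mul_cancel₀ hc0, one_smul]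
        exact hy
    refine ⟨⟨b', hLe⟩, ?_⟩
    simp only
    rw [hLe, covol_span, covol_span]
    have hm : Matrix.of (b' : Fin (n + 1) → V n) = c • Matrix.of (b : Fin (n + 1) → V n) := by
      ext i j
      change b' i j = c • b i j
      rw [hbv]
      rfl
    rw [hm, Matrix.det_smul, Fintype.card_fin, abs_mul, abs_of_pos (pow_pos hc _)]

end Pool.Agent.CON.H58

end
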